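import Mathlib

set_option autoImplicit false

open Filter Topology Set

namespace Pool.Agent.Results.MP_b3c6e2_an.Proof

def Ienv (𝕜 : Type) [RCLike 𝕜] {X : Type} [NormedAddCommGroup X] [NormedSpace 𝕜 X]
    (A : Set (StrongDual 𝕜 X)) : Set (StrongDual 𝕜 X) :=
  {η | ∀ x : ℕ → X, (∀ n, ‖x n‖ ≤ 1) → ⨅ n, ((RCLike.re (η (x n)) : ℝ) : EReal) ≤
    ⨆ ξ ∈ A, limsup (fun n => ((RCLike.re (ξ (x n)) : ℝ) : EReal)) atTop}

lemma ulim (U : Ultrafilter ℕ) (f : ℕ → ℝ) (h : ∃ M, ∀ n, |f n| ≤ M) :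
    ∃ l, Tendsto f U (𝓝 l) := by
  obtain ⟨M, h⟩ := h
  obtain ⟨l, -, hl⟩ := (isCompact_Icc (a := -M) (b := M)).ultrafilter_le_nhds' (U.map f)
    (mem_map.2 (univ_mem' fun n => abs_le.1 (h n)))
  exact ⟨l, hl⟩

section
variable {V : Type} [AddCommGroup V] [Module ℝ V] (a b : ℕ → V → ℝ)

def R (S : Set V) (F : Filter ℕ) (t : ℝ) : Prop :=
  ∀ ξ ∈ S, ∀ ε > 0, ∀ᶠ n in F, t * a n ξ + (1 - t) * b n ξ ≤ ε

variable {a b} (P Q : Set V) (hc : Convex ℝ (P ∪ Q))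
  (ha : ∀ n ξ ζ (s : ℝ), a n (s • ξ + (1 - s) • ζ) = s * a n ξ + (1 - s) * a n ζ)
  (hb : ∀ n ξ ζ (s : ℝ), b n (s • ξ + (1 - s) • ζ) = s * b n ξ + (1 - s) * b n ζ)
  (ba : ∀ ξ, ∃ M, ∀ n, |a n ξ| ≤ M) (bb : ∀ ξ, ∃ M, ∀ n, |b n ξ| ≤ M)
  (hP : ∀ ξ ∈ P, ∀ᶠ n in atTop, a n ξ ≤ 0) (hQ : ∀ ξ ∈ Q, ∀ᶠ n in atTop, b n ξ ≤ 0)

include hc ha hb ba bb hP hQ in
lemma step (t : ℝ) (ht : t ∈ Icc (0 : ℝ) 1) (A : Set ℕ) (hA : ∃ᶠ n in atTop, n ∈ A) :
    ∃ B ⊆ A, (∃ᶠ n in atTop, n ∈ B) ∧ (R a b P (atTop ⊓ 𝓟 B) t ∨ R a b Q (atTop ⊓ 𝓟 B) t) := by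
  by_cases h1 : R a b P (atTop ⊓ 𝓟 A) t
  · exact ⟨A, subset_rfl, hA, Or.inl h1⟩
  simp only [R, not_forall, not_eventually, not_le, frequently_inf_principal] at h1
  obtain ⟨ξ, hξ, ε, e0, h1⟩ := h1
  refine ⟨{n | n ∈ A ∧ ε < t * a n ξ + (1 - t) * b n ξ}, fun n h => h.1, h1, Or.inr ?_⟩
  by_contra h2
  simp only [R, not_forall, not_eventually, not_le] at h2
  obtain ⟨ζ, hζ, δ, d0, h2⟩ := h2
  have := frequently_iff_neBot.1 h2
  set U := Ultrafilter.of (atTop ⊓ 𝓟 {n | n ∈ A ∧ ε < t * a n ξ + (1 - t) * b n ξ} ⊓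
    𝓟 {n | δ < t * a n ζ + (1 - t) * b n ζ})
  have hU := Ultrafilter.of_le (atTop ⊓ 𝓟 {n | n ∈ A ∧ ε < t * a n ξ + (1 - t) * b n ξ} ⊓
    𝓟 {n | δ < t * a n ζ + (1 - t) * b n ζ})
  simp only [le_inf_iff, le_principal_iff] at hU
  obtain ⟨⟨u1, u2⟩, u3⟩ := hU
  obtain ⟨p, hp⟩ := ulim U _ (ba ξ)
  obtain ⟨q, hq⟩ := ulim U _ (bb ξ)
  obtain ⟨r, hr⟩ := ulim U _ (ba ζ)
  obtain ⟨w, hw⟩ := ulim U _ (bb ζ)
  have p0 : p ≤ 0 := le_of_tendsto hp ((hP ξ hξ).filter_mono u1)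
  have w0 : w ≤ 0 := le_of_tendsto hw ((hQ ζ hζ).filter_mono u1)
  have e1 : ε ≤ t * p + (1 - t) * q := ge_of_tendsto ((hp.const_mul t).add (hq.const_mul _))
    (mem_of_superset u2 fun n h => h.2.le)
  have e2 : δ ≤ t * r + (1 - t) * w := ge_of_tendsto ((hr.const_mul t).add (hw.const_mul _))
    (Eventually.mono u3 fun n h => le_of_lt h)
  have c1 : 0 < q - p := by
    by_contra h
    nlinarith [mul_nonneg (sub_nonneg.2 ht.2) (neg_nonneg.2 (not_lt.1 h))]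
  have c2 : 0 < r - w := by
    by_contra h
    nlinarith [mul_nonneg ht.1 (neg_nonneg.2 (not_lt.1 h))]
  set s := (r - w) / (q - p + (r - w)) with hs
  have s0 : 0 < s := by positivity
  have s1 : s < 1 := by rw [hs, div_lt_one (by positivity)]; linarith
  have e3 : s * p + (1 - s) * r = s * q + (1 - s) * w := by rw [hs]; field_simp; ring
  have e4 : 0 < s * p + (1 - s) * r := by
    have : s * p + (1 - s) * r = s * (t * p + (1 - t) * q) + (1 - s) * (t * r + (1 - t) * w) := by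
      linear_combination (1 - t) * e3
    rw [this]
    exact add_pos (mul_pos s0 (by linarith)) (mul_pos (by linarith) (by linarith))
  rcases hc (Or.inl hξ) (Or.inr hζ) s0.le (sub_pos.2 s1).le (add_sub_cancel _ _) with h | h
  · exact e4.not_ge (le_of_tendsto ((hp.const_mul s).add (hr.const_mul _))
      (((hP _ h).filter_mono u1).mono fun n hn => ha n ξ ζ s ▸ hn))
  · exact (e3 ▸ e4).not_ge (le_of_tendsto ((hq.const_mul s).add (hw.const_mul _))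
      (((hQ _ h).filter_mono u1).mono fun n hn => hb n ξ ζ s ▸ hn))

include ba bb in
lemma closed (S : Set V) (F : Filter ℕ) : IsClosed {t | R a b S F t} := by
  refine isClosed_of_closure_subset fun t ht ξ hξ ε e0 => ?_
  obtain ⟨M, hM⟩ := ba ξ
  obtain ⟨N, hN⟩ := bb ξ
  have m0 : 0 < M + N + 1 := by linarith [(abs_nonneg _).trans (hM 0), (abs_nonneg _).trans (hN 0)]
  obtain ⟨u, hu, hd⟩ := Metric.mem_closure_iff.1 ht (ε / 2 / (M + N + 1)) (by positivity)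
  filter_upwards [hu ξ hξ (ε / 2) (half_pos e0)] with n hn
  rw [Real.dist_eq, lt_div_iff₀ m0] at hd
  have h1 : |(t - u) * (a n ξ - b n ξ)| ≤ |t - u| * (M + N + 1) := by
    rw [abs_mul]
    exact mul_le_mul_of_nonneg_left ((abs_sub _ _).trans (by linarith [hM n, hN n])) (abs_nonneg _)
  linarith [le_abs_self ((t - u) * (a n ξ - b n ξ))]

include hc ha hb ba bb hP hQ in
lemma key : ∃ t ∈ Icc (0 : ℝ) 1, ∃ φ : ℕ → ℕ, R a b (P ∪ Q) (map φ atTop) t := by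
  choose! f f1 f2 f3 using fun (t : Icc (0 : ℝ) 1) => step P Q hc ha hb ba bb hP hQ t t.2
  set q := TopologicalSpace.denseSeq (Icc (0 : ℝ) 1)
  set A : ℕ → Set ℕ := fun k => Nat.rec univ (fun k B => f (q k) B) k
  have hA : ∀ k, ∃ᶠ n in atTop, n ∈ A k := fun k =>
    Nat.rec (Frequently.of_forall fun _ => trivial) (fun k h => f2 (q k) _ h) k
  have hm : Antitone A := antitone_nat_of_succ_le fun k => f1 (q k) _ (hA k)
  choose φ h1 h2 using fun k => frequently_atTop.1 (hA k) k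
  have hφ : ∀ k, map φ atTop ≤ atTop ⊓ 𝓟 (A k) := fun k => le_inf (tendsto_atTop_mono h1 tendsto_id)
    (tendsto_principal.2 ((eventually_ge_atTop k).mono fun j hj => hm hj (h2 j)))
  have h0 : map φ atTop ≤ atTop := (hφ 0).trans inf_le_left
  obtain ⟨t, ht, p1, p2⟩ := isPreconnected_closed_iff.1 (isPreconnected_Icc (a := (0 : ℝ)) (b := 1))
    _ _ (closed ba bb P (map φ atTop)) (closed ba bb Q (map φ atTop))
    (fun t ht => (TopologicalSpace.denseRange_denseSeq (Icc (0 : ℝ) 1)).induction_on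
      (p := fun u : Icc (0 : ℝ) 1 => (u : ℝ) ∈ {t | R a b P (map φ atTop) t} ∪
        {t | R a b Q (map φ atTop) t}) ⟨t, ht⟩
      (((closed ba bb P _).union (closed ba bb Q _)).preimage continuous_subtype_val)
      fun k => (f3 (q k) _ (hA k)).imp
        (fun h ξ hξ ε e0 => (h ξ hξ ε e0).filter_mono (hφ (k + 1)))
        fun h ξ hξ ε e0 => (h ξ hξ ε e0).filter_mono (hφ (k + 1)))
    ⟨1, ⟨zero_le_one, le_rfl⟩, fun ξ hξ ε e0 =>
      ((hP ξ hξ).filter_mono h0).mono fun n hn => by linarith⟩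
    ⟨0, ⟨le_rfl, zero_le_one⟩, fun ξ hξ ε e0 =>
      ((hQ ξ hξ).filter_mono h0).mono fun n hn => by linarith⟩
  exact ⟨t, ht, φ, fun ξ hξ => hξ.elim (p1 ξ) (p2 ξ)⟩

end

lemma out {𝕜 : Type} [RCLike 𝕜] {X : Type} [NormedAddCommGroup X] [NormedSpace 𝕜 X]
    {A : Set (StrongDual 𝕜 X)} {η : StrongDual 𝕜 X} (h : η ∉ Ienv 𝕜 A) :
    ∃ (x : ℕ → X) (r s : ℝ), (∀ n, ‖x n‖ ≤ 1) ∧ r < s ∧ (∀ n, s ≤ RCLike.re (η (x n))) ∧
      ∀ ξ ∈ A, ∀ᶠ n in atTop, RCLike.re (ξ (x n)) - r ≤ 0 := by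
  simp only [Ienv, mem_ofPred, not_forall, not_le] at h
  obtain ⟨x, hx, h⟩ := h
  obtain ⟨r, h1, h2⟩ := EReal.lt_iff_exists_real_btwn.1 h
  obtain ⟨s, h3, h4⟩ := EReal.lt_iff_exists_real_btwn.1 h2
  refine ⟨x, r, s, hx, by exact_mod_cast h3, fun n => by
    exact_mod_cast h4.le.trans (iInf_le _ n), fun ξ hξ => ?_⟩
  filter_upwards [eventually_lt_of_limsup_lt ((le_iSup₂_of_le ξ hξ le_rfl).trans_lt h1)] with n hn
  exact sub_nonpos.2 (by exact_mod_cast hn.le)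

theorem result (𝕜 : Type) [RCLike 𝕜] (X : Type) [NormedAddCommGroup X] [NormedSpace 𝕜 X]
    (A B : Set (StrongDual 𝕜 X)) (h : Convex ℝ (A ∪ B)) :
    Ienv 𝕜 (A ∪ B) = Ienv 𝕜 A ∪ Ienv 𝕜 B := by
  refine subset_antisymm (fun η hη => ?_) (union_subset
    (fun η hη x hx => (hη x hx).trans (biSup_mono fun _ => Or.inl))
    fun η hη x hx => (hη x hx).trans (biSup_mono fun _ => Or.inr))
  by_contra hn
  obtain ⟨x, r, s, x1, x2, x3, x4⟩ := out fun h => hn (Or.inl h)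
  obtain ⟨y, r', s', y1, y2, y3, y4⟩ := out fun h => hn (Or.inr h)
  have af : ∀ (z : X) (c : ℝ) (ξ ζ : StrongDual 𝕜 X) (u : ℝ),
      RCLike.re ((u • ξ + (1 - u) • ζ) z) - c =
        u * (RCLike.re (ξ z) - c) + (1 - u) * (RCLike.re (ζ z) - c) := fun z c ξ ζ u => by
    simp only [add_apply, smul_apply, map_add,
      RCLike.smul_re]
    ring
  have bd : ∀ (z : ℕ → X) (c : ℝ), (∀ n, ‖z n‖ ≤ 1) → ∀ ξ : StrongDual 𝕜 X,
      ∃ M, ∀ n, |RCLike.re (ξ (z n)) - c| ≤ M := fun z c hz ξ => ⟨‖ξ‖ + |c|, fun n =>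
    (abs_sub _ _).trans (add_le_add_left ((RCLike.abs_re_le_norm _).trans
      (ξ.unit_le_opNorm _ (hz n))) _)⟩
  obtain ⟨t, ht, φ, hφ⟩ := key (a := fun n ξ => RCLike.re (ξ (x n)) - r)
    (b := fun n ξ => RCLike.re (ξ (y n)) - r') A B h (fun n => af _ _) (fun n => af _ _)
    (bd x r x1) (bd y r' y1) x4 y4
  have ev : ∀ (ξ : StrongDual 𝕜 X) n, RCLike.re (ξ ((t : 𝕜) • x n + ((1 - t : ℝ) : 𝕜) • y n)) =
      t * RCLike.re (ξ (x n)) + (1 - t) * RCLike.re (ξ (y n)) := fun ξ n => by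
    simp only [map_add, map_smul, smul_eq_mul, RCLike.re_ofReal_mul]
  have t1 : 0 ≤ 1 - t := sub_nonneg.2 ht.2
  obtain ⟨c, c1, c2⟩ := exists_between (show t * r + (1 - t) * r' < t * s + (1 - t) * s' by
    rcases ht.1.eq_or_lt with h0 | h0
    · simpa [← h0] using y2
    · nlinarith)
  have := hη (fun k => (t : 𝕜) • x (φ k) + ((1 - t : ℝ) : 𝕜) • y (φ k)) fun k => by
    refine (norm_add_le _ _).trans ?_
    rw [norm_smul, norm_smul, RCLike.norm_ofReal, RCLike.norm_ofReal, abs_of_nonneg ht.1,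
      abs_of_nonneg t1]
    nlinarith [x1 (φ k), y1 (φ k), ht.1]
  refine absurd ((le_iInf fun k => ?_).trans (this.trans (iSup₂_le fun ξ hξ =>
    limsup_le_of_le (h := ?_)))) (not_le.2 (EReal.coe_lt_coe_iff.2 c2))
  · rw [ev, EReal.coe_le_coe_iff]
    nlinarith [x3 (φ k), y3 (φ k), ht.1]
  · filter_upwards [eventually_map.1 (hφ ξ hξ _ (sub_pos.2 c1))] with k hk
    rw [ev, EReal.coe_le_coe_iff]
    linarith

end Pool.Agent.Results.MP_b3c6e2_an.Proof
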